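import Pool.Agent.K4H46.QS.Bs

/-!
# MP_07c750_an: the energy-momentum tensors of the eigenfunctions of a random metric

A random Riemannian metric on a closed surface is deformed by a flow which leaves the class of null
sets invariant; the deformation need not be conformal.  The derivative of the metric, tested against
the energy-momentum tensors of the eigenfunctions, converges in the mean to the value which belongs
to the uniform measure.
-/

set_option autoImplicit false

open Set Filter Topology MeasureTheory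
open scoped Real

noncomputable section

namespace Pool.Agent.Results.MP_07c750_an.EnergyMomentumTensor

open Pool.Agent.Y262.QE Pool.Agent.Y264.QR Pool.Agent.K4H46.QS

theorem result : ∀ (M : Type) [MetricSpace M] [CompactSpace M] [Nonempty M] [MeasurableSpace M]
    [BorelSpace M] (D : Data M) (μ : Measure M) (Ω : Type) [MeasurableSpace Ω] (P : Measure Ω)
    [IsProbabilityMeasure P] (θ : ℝ → Ω → Ω), Flw P θ →
    ∀ (A : Ω → Fin D.N → ℂ → ℂ →L[ℝ] ℂ) (φ : Ω → C(M, ℝ))
      (S : Ω → Fin D.N → ℂ → ℂ →L[ℝ] ℂ →L[ℝ] ℝ) (h : Ω → C(M, ℝ)) (K : ℝ),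
    IsDef D μ θ A φ S h K →
    (∀ o, ∃ (u : ℕ → M → ℝ) (G : ℕ → M → ℂ) (lam : ℕ → ℝ),
      IsBasis (cof D (A o)) μ (fun x => Real.exp (φ o x)) u G lam) ∧
    ∀ (u : Ω → ℕ → M → ℝ) (G : Ω → ℕ → M → ℂ) (lam : Ω → ℕ → ℝ),
    (∀ o, IsBasis (cof D (A o)) μ (fun x => Real.exp (φ o x)) (u o) (G o) (lam o)) →
    (∀ j, Measurable fun o => lam o j) →
    (∀ j, AEStronglyMeasurable
      (fun o => emt (cof D (A o)) μ (S o) (h o) (φ o) (u o j) (G o j) (lam o j)) P) ∧
    (∀ χ : Ω → ℝ, Integrable χ P →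
      Tendsto (fun j => ∫ o, χ o *
        emt (cof D (A o)) μ (S o) (h o) (φ o) (u o j) (G o j) (lam o j) ∂P) atTop
        (𝓝 (∫ o, χ o * avg μ (h o) (φ o) ∂P))) ∧
    ∀ J : ℕ → ℕ, Tendsto J atTop atTop → ∀ᵐ o ∂P, ∀ L : ℝ,
      Tendsto (fun k => emt (cof D (A o)) μ (S o) (h o) (φ o) (u o (J k)) (G o (J k))
        (lam o (J k))) atTop (𝓝 L) → L = avg μ (h o) (φ o) := by
  intro M _ _ _ _ _ D μ Ω _ P _ θ hθ A φ S h K H
  refine ⟨fun o => exBasis (H.surf o) (φ o), fun u G lam hB hm => ?_⟩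
  choose i a b hp using fun o => exists_pk (H.surf o)
  choose e he hE using fun o => toEg (H.surf o) (hp o) (φ o) (hB o)
  have hem : ∀ o j, emt (cof D (A o)) μ (S o) (h o) (φ o) (u o j) (G o j) (lam o j) =
      ka (cof D (A o)) μ (i o) (S o) (h o) (φ o) (e o j) (lam o j) := by
    intro o j
    unfold emt ka kap
    congr 2
    · congr 1
      refine integral_congr_ae ?_
      filter_upwards [(he o j).1] with x hx
      rw [(hp o).fst, hx]
    · refine integral_congr_ae ?_
      filter_upwards [(he o j).2] with x hx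
      rw [hx]
  obtain ⟨h1, h2, h3, h4, h5⟩ := flow hθ H i a b hp e lam hE hm
  simp only [hem]
  refine ⟨h1, h5, ?_⟩
  exact Pool.Agent.Y401.QR.t_QL Ω P
    (fun j o => ka (cof D (A o)) μ (i o) (S o) (h o) (φ o) (e o j) (lam o j))
    (fun o => avg μ (h o) (φ o)) (2 * K + 2) h1 h2.aestronglyMeasurable
    (fun j => Eventually.of_forall fun o => h3 o j) (Eventually.of_forall h4) h5

end Pool.Agent.Results.MP_07c750_an.EnergyMomentumTensor
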