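import Pool.Agent.K4H59.QP.Top

/-!
# Every level is equidistributed after an arbitrarily small conformal perturbation

Let `(M, g)` be a closed surface with a continuous Riemannian metric (for instance a smooth metric
of negative curvature), and let `V` be a space of functions on `M` with a topology of its own: a
first countable topological vector space `V` with a continuous linear map `T` into `C(M)` with dense
range (for instance the space of the smooth functions). For every `j` there is a `ψ j` in `V`, with
`ψ j → 0` in `V`, such that the metrics `exp (T (ψ j)) · g` have the following property: in the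
eigenspace of the `j`-th eigenvalue there is a convex combination of at most `R j + 1` normalized
eigenfunctions (where `R` is any given function which tends to infinity) whose densities
`∑ r, p j r * (u j r)²` converge weakly to the uniform measure of `g`, as `j → ∞` through all
integers; and for every single continuous function `f` there are genuine normalized eigenfunctions
`z j` of these eigenspaces with `∫ f (z j)² dA → ∫ f dμ / μ (M)`. There is no exceptional sequence of
levels.

Idea of the proof. By Weyl's law and equicontinuity, `log (E_j (φ) / (j + 1)) + log Area (φ)` tends to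
`log 4 π` uniformly on the compact set of the `φ = ∑ c_l h_l` with `|c_l| ≤ ρ`. With a small quadratic
penalty the minimum over this set is attained in the interior. At this point the one-sided
directional derivatives of the eigenvalue `E_j` (which may be multiple) are controlled by the
quadratic forms `v ↦ ∫ h v² dA` on the eigenspace; a separation argument gives a convex combination
of eigenfunctions for which `∫ h_l (∑ p_r u_r²) dA` is close to the mean value of `h_l` for all `l`,
and Carathéodory's theorem bounds their number. A diagonal argument finishes the proof.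

The surfaces, their spectral theory and Weyl's law are those of the files
`Pool/Agent/Y262/QE/All.lean` and `Pool/Agent/Y264/QR/All.lean`.
-/

set_option autoImplicit false

open Set Filter Topology MeasureTheory
open Pool.Agent.Y262.QE

noncomputable section

namespace Pool.Agent.Results.MP_07c750_an.EveryLevelByPerturbation

/-- `u 0, u 1, ...` is an orthonormal basis of `L² (μ)` which consists of eigenfunctions of the
Laplacian of the surface `D` with the area `μ`; the eigenvalues `lam 0 ≤ lam 1 ≤ ...` are ordered -/
structure IsEigenbasis {M : Type} [MeasurableSpace M] (D : Data M) (μ : Measure M)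
    (u : ℕ → M → ℝ) (lam : ℕ → ℝ) : Prop where
  eig : ∀ j, D.IsEig μ (lam j) (u j)
  mono : Monotone lam
  orth : ∀ i j, ∫ x, u i x * u j x ∂μ = if i = j then 1 else 0
  total : ∀ f : M → ℝ, MemLp f 2 μ → (∀ j, ∫ x, f x * u j x ∂μ = 0) → f =ᵐ[μ] 0

/-- the surface with the metric `exp φ · g` -/
def surf {M : Type} [TopologicalSpace M] (D : Data M) (φ : C(M, ℝ)) : Data M :=
  D.conf fun x => Real.exp (φ x)

/-- the area of the metric `exp φ · g` -/
def area {M : Type} [TopologicalSpace M] [MeasurableSpace M] (μ : Measure M) (φ : C(M, ℝ)) :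
    Measure M :=
  wm μ fun x => Real.exp (φ x)

/-- `u` is a normalized eigenfunction of the surface with the metric `exp φ · g` for the
eigenvalue `lam` -/
def Normalized {M : Type} [TopologicalSpace M] [MeasurableSpace M] (D : Data M) (μ : Measure M)
    (φ : C(M, ℝ)) (lam : ℝ) (u : M → ℝ) : Prop :=
  (surf D φ).IsEig (area μ φ) lam u ∧ ∫ x, (u x) ^ 2 ∂(area μ φ) = 1

theorem result (M : Type) [MetricSpace M] [CompactSpace M] [MeasurableSpace M] [BorelSpace M]
    [Nonempty M] (μ : Measure M) (D : Data M) (hD : D.IsSurf μ)
    (V : Type) [AddCommGroup V] [Module ℝ V] [TopologicalSpace V] [IsTopologicalAddGroup V]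
    [ContinuousSMul ℝ V] [FirstCountableTopology V] (T : V →L[ℝ] C(M, ℝ)) (hT : DenseRange T)
    (R : ℕ → ℕ) (hR : Tendsto R atTop atTop) :
    ∃ (ψ : ℕ → V) (w : ℕ → ℕ → M → ℝ) (E : ℕ → ℕ → ℝ) (p : ℕ → ℕ → ℝ) (u : ℕ → ℕ → M → ℝ),
      Tendsto ψ atTop (𝓝 0) ∧
      (∀ j, (surf D (T (ψ j))).IsSurf (area μ (T (ψ j))) ∧
        IsEigenbasis (surf D (T (ψ j))) (area μ (T (ψ j))) (w j) (E j)) ∧
      (∀ j r, Normalized D μ (T (ψ j)) (E j j) (u j r)) ∧
      (∀ j r, 0 ≤ p j r) ∧ (∀ j, ∑ r ∈ Finset.range (R j + 1), p j r = 1) ∧
      ∀ f : C(M, ℝ),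
        Tendsto (fun j => ∑ r ∈ Finset.range (R j + 1),
          p j r * ∫ x, f x * (u j r x) ^ 2 ∂(area μ (T (ψ j)))) atTop
          (𝓝 ((∫ x, f x ∂μ) / μ.real univ)) ∧
        ∃ z : ℕ → M → ℝ, (∀ j, Normalized D μ (T (ψ j)) (E j j) (z j)) ∧
          Tendsto (fun j => ∫ x, f x * (z j x) ^ 2 ∂(area μ (T (ψ j)))) atTop
            (𝓝 ((∫ x, f x ∂μ) / μ.real univ)) := by
  obtain ⟨ψ, w, E, p, u, h1, h2, h3, h4, h5, h6⟩ :=
    Pool.Agent.K4H59.QP.top M μ D hD V T hT R hR
  exact ⟨ψ, w, E, p, u, h1, fun j => ⟨(Pool.Agent.Y262.QE.tConf M μ D hD _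
    (Real.continuous_exp.comp (T (ψ j)).continuous) fun x => Real.exp_pos _).1,
    (h2 j).eig, (h2 j).mono, (h2 j).orth, (h2 j).total⟩, h3, h4, h5, h6⟩

end Pool.Agent.Results.MP_07c750_an.EveryLevelByPerturbation
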