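import Pool.Agent.K4H66.QU.Ae

/-!
# Generic metrics: no fixed sequence of indices scars on one side

Let `(M, g)` be a closed surface with a continuous Riemannian metric. For a continuous function `φ`
consider the metric `exp φ · g` and an orthonormal basis `u 0, u 1, ...` of eigenfunctions of its
Laplacian, ordered by the eigenvalue. Let `J k → ∞` be a fixed sequence of indices.

* Baire category: let `X` be a topological vector space (for instance the smooth functions on `M`
  with the `C^∞` topology) and `T : X → C(M)` continuous and linear with dense range. For all `x` in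
  a residual subset of `X` (hence for the generic point of every open subset, for instance of the set
  of the metrics `exp (T x) g` with negative curvature) and for every choice of the eigenbasis, the
  uniform measure belongs to the closed convex hull of each tail of the sequence of the measures
  `(u (J k))² dA` (equivalently: of the set of the weak-* limits of this sequence). More precisely, for
  every `f` and `ε > 0` there are arbitrarily large `k` such that `∫ f v² dA ≥ mean f - ε` for all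
  normalized eigenfunctions `v` of the index `J k` simultaneously.
* Probability: the same holds for almost every metric with respect to every Borel probability measure
  on `C(M)` which is quasi-invariant under the translations by the multiples of the functions of a
  set with dense span, and for every choice of the eigenbasis.

Proof. The integral of `∫ f (u j)²` over a segment `φ + t f` is the difference of the logarithms of
the `j`-th eigenvalues, also if the eigenfunctions are chosen as unfavourably as possible in each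
eigenspace, and tends by Weyl's law to the integral of the mean value. So on each short segment there
are `t` and `k` such that all eigenfunctions of index `J k` have a mass which is not smaller than the
mean value minus `ε`; by a quantitative stability estimate for eigenspaces (`stab`, `near`) this is an
open condition up to a change of `ε`.
-/

set_option autoImplicit false

open Set Filter Topology MeasureTheory
open Pool.Agent.Y262.QE

noncomputable section

namespace Pool.Agent.Results.MP_07c750_an.GenericConvexHull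

/-- `u 0, u 1, ...` is an orthonormal basis of `L² (μ)` which consists of eigenfunctions of the
Laplacian of the surface `D` with the area `μ`; the eigenvalues `lam 0 ≤ lam 1 ≤ ...` are ordered -/
structure IsEigenbasis {M : Type} [MeasurableSpace M] (D : Data M) (μ : Measure M)
    (u : ℕ → M → ℝ) (lam : ℕ → ℝ) : Prop where
  eig : ∀ j, D.IsEig μ (lam j) (u j)
  mono : Monotone lam
  orth : ∀ i j, ∫ x, u i x * u j x ∂μ = if i = j then 1 else 0
  total : ∀ f : M → ℝ, MemLp f 2 μ → (∀ j, ∫ x, f x * u j x ∂μ = 0) → f =ᵐ[μ] 0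

/-- the surface with the metric `exp φ · g` -/
def surf {M : Type} [TopologicalSpace M] (D : Data M) (φ : C(M, ℝ)) : Data M :=
  D.conf fun x => Real.exp (φ x)

/-- the area of the metric `exp φ · g` -/
def area {M : Type} [TopologicalSpace M] [MeasurableSpace M] (μ : Measure M) (φ : C(M, ℝ)) :
    Measure M :=
  wm μ fun x => Real.exp (φ x)

/-- the mean value of `f` -/
def mean {M : Type} [TopologicalSpace M] [MeasurableSpace M] (μ : Measure M) (f : C(M, ℝ)) : ℝ :=
  (∫ x, f x ∂μ) / μ.real univ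

/-- the uniform measure belongs to the weak-* closure of the convex hull of each tail of the sequence
of the measures `(u (J k))² dμ` -/
def UniformInHull {M : Type} [TopologicalSpace M] [MeasurableSpace M] (μ : Measure M)
    (u : ℕ → M → ℝ) (J : ℕ → ℕ) : Prop :=
  ∀ (F : Finset C(M, ℝ)) (ε : ℝ), 0 < ε → ∀ K : ℕ, ∃ (s : Finset ℕ) (w : ℕ → ℝ),
    (∀ k ∈ s, K ≤ k ∧ 0 ≤ w k) ∧ ∑ k ∈ s, w k = 1 ∧
    ∀ f ∈ F, |∑ k ∈ s, w k * (∫ x, f x * (u (J k) x) ^ 2 ∂μ) - mean μ f| ≤ ε

section

open Pool.Agent.Y264.QR Pool.Agent.K4H66.QU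

variable {M : Type} [MetricSpace M] [CompactSpace M] [MeasurableSpace M] [BorelSpace M]
  {μ : Measure M} [IsFiniteMeasure μ] {H : Type} [NormedAddCommGroup H] [InnerProductSpace ℝ H]
  {i : H →L[ℝ] Lp ℝ 2 μ} {a : H →L[ℝ] H →L[ℝ] ℝ} {b : C(M, ℝ) → H →L[ℝ] H →L[ℝ] ℝ}

theorem mean_eq (f φ : C(M, ℝ)) : avg μ f φ = mean (area μ φ) f := avg_eq μ f φ

theorem hull_aux {φ : C(M, ℝ)} {e : ℕ → H} {u : ℕ → M → ℝ} {J : ℕ → ℕ}
    (hk : ∀ (f : C(M, ℝ)) (j : ℕ), kap μ i f φ (e j) = ∫ x, f x * (u j x) ^ 2 ∂(area μ φ))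
    (h : ∀ (f : C(M, ℝ)) (ε : ℝ), 0 < ε → ∀ K : ℕ, ∃ k, K ≤ k ∧
      avg μ f φ - ε ≤ kap μ i f φ (e (J k))) : UniformInHull (area μ φ) u J := by
  intro F ε hε K
  let A : ℕ → C(M, ℝ) →ₗ[ℝ] ℝ := fun k =>
    { toFun := fun f => kap μ i f φ (e (J k))
      map_add' := fun f g => Pool.Agent.Y378.QR.kap_add f g φ _
      map_smul' := fun c f => Pool.Agent.Y378.QR.kap_smul c f φ _ }
  let m : C(M, ℝ) →ₗ[ℝ] ℝ :=
    { toFun := fun f => avg μ f φ
      map_add' := fun f g => Pool.Agent.Y378.QR.avg_add f g φ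
      map_smul' := fun c f => Pool.Agent.Y378.QR.avg_smul c f φ }
  obtain ⟨s, w, h1, h2, h3⟩ := hull_of A m h F hε K
  refine ⟨s, w, h1, h2, fun f hf => ?_⟩
  have h4 : |∑ k ∈ s, w k * kap μ i f φ (e (J k)) - avg μ f φ| ≤ ε := h3 f hf
  simp only [hk, mean_eq] at h4
  exact h4

end

theorem result (M : Type) [MetricSpace M] [CompactSpace M] [MeasurableSpace M] [BorelSpace M]
    [Nonempty M] (μ : Measure M) (D : Data M) (hD : D.IsSurf μ) :
    (∀ φ : C(M, ℝ), (surf D φ).IsSurf (area μ φ) ∧
      ∃ (u : ℕ → M → ℝ) (lam : ℕ → ℝ), IsEigenbasis (surf D φ) (area μ φ) u lam) ∧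
    ∀ J : ℕ → ℕ, Tendsto J atTop atTop →
    (∀ (X : Type) [AddCommGroup X] [Module ℝ X] [TopologicalSpace X] [ContinuousAdd X]
      [ContinuousSMul ℝ X] (T : X →L[ℝ] C(M, ℝ)), DenseRange T →
      {x : X |
        (∀ (f : C(M, ℝ)) (ε : ℝ), 0 < ε → ∀ K : ℕ, ∃ k, K ≤ k ∧
          ∀ (u : ℕ → M → ℝ) (lam : ℕ → ℝ), IsEigenbasis (surf D (T x)) (area μ (T x)) u lam →
            mean (area μ (T x)) f - ε ≤ ∫ y, f y * (u (J k) y) ^ 2 ∂(area μ (T x))) ∧
        ∀ (u : ℕ → M → ℝ) (lam : ℕ → ℝ), IsEigenbasis (surf D (T x)) (area μ (T x)) u lam →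
          UniformInHull (area μ (T x)) u J} ∈ residual X) ∧
    ∀ [MeasurableSpace C(M, ℝ)] [BorelSpace C(M, ℝ)] (P : Measure C(M, ℝ)) [IsProbabilityMeasure P]
      (S : Set C(M, ℝ)), Dense (Submodule.span ℝ S : Set C(M, ℝ)) →
      (∀ h ∈ S, ∀ t : ℝ, P.map (fun φ => φ + t • h) ≪ P) →
      ∀ᵐ φ ∂P, ∀ (u : ℕ → M → ℝ) (lam : ℕ → ℝ), IsEigenbasis (surf D φ) (area μ φ) u lam →
        UniformInHull (area μ φ) u J := by
  obtain ⟨hfin, -⟩ := Pool.Agent.Y262.QE.tFin M μ D hD
  have _ := hfin
  obtain ⟨i, a, b, hC, htr⟩ := Pool.Agent.K4H66.QU.transfer μ D hD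
  have hbas : ∀ {φ : C(M, ℝ)} {u : ℕ → M → ℝ} {lam : ℕ → ℝ},
      IsEigenbasis (surf D φ) (area μ φ) u lam →
      ∃ e : ℕ → Pool.Agent.Y264.QR.HF D μ, Pool.Agent.Y262.QE.Eg a (b φ) e lam ∧
        ∀ (f : C(M, ℝ)) (j : ℕ), Pool.Agent.Y264.QR.kap μ i f φ (e j) =
          ∫ x, f x * (u j x) ^ 2 ∂(area μ φ) :=
    fun {φ u lam} hu => htr φ u lam ⟨hu.eig, hu.mono, hu.orth, hu.total⟩
  refine ⟨fun φ => ⟨(Pool.Agent.Y262.QE.tConf M μ D hD _
    (Real.continuous_exp.comp φ.continuous) fun x => Real.exp_pos _).1, ?_⟩, fun J hJ => ⟨?_, ?_⟩⟩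
  · obtain ⟨u, lam, h⟩ := Pool.Agent.Y264.QR.tEx M μ D hD inferInstance φ
    exact ⟨u, lam, h.eig, h.mono, h.orth, h.total⟩
  · intro X _ _ _ _ _ T hT
    refine mem_of_superset (hC.generic hT hJ) fun x hx => ⟨?_, ?_⟩
    · intro f ε hε K
      obtain ⟨k, hk, hv⟩ := hx f ε hε K
      refine ⟨k, hk, fun u lam hu => ?_⟩
      obtain ⟨e, he, hkap⟩ := hbas hu
      have h1 := hv (e (J k)) (hC.isV he (J k))
      rwa [hkap, mean_eq] at h1
    · intro u lam hu
      obtain ⟨e, he, hkap⟩ := hbas hu
      refine hull_aux hkap fun f ε hε K => ?_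
      obtain ⟨k, hk, hv⟩ := hx f ε hε K
      exact ⟨k, hk, hv (e (J k)) (hC.isV he (J k))⟩
  · intro _ _ P _ S hS hP
    filter_upwards [hC.aeHull P S hS hP hJ] with φ hφ
    intro u lam hu
    obtain ⟨e, he, hkap⟩ := hbas hu
    exact hull_aux hkap (hφ e lam he)

end Pool.Agent.Results.MP_07c750_an.GenericConvexHull
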