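import Pool.Agent.K4H66.QU.Ae

/-!
# Quantum unique ergodicity in conformal classes: eigenvalue criterion and zero-one law

Let `(M, g)` be a closed surface with a continuous Riemannian metric, `X` a topological vector space
(for instance the smooth functions on `M` with the `C^∞` topology), `T : X → C(M)` continuous and
linear with dense range, and `O` an open subset of `X` (for instance the set of all `x` for which the
metric `exp (T x) g` has negative curvature). Eigenfunctions are normalized and ordered by the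
eigenvalue `E_j`; `dev f u` is the distance of `∫ f u² dA` from the mean value of `f`.

* `(1)` If for the metrics in a dense subset of `O` *some* eigenbasis satisfies `dev f (u j) ≤ ε` for
  all `j ≥ J`, then this holds for *all* metrics in `O` and *all* eigenbases, with the same `ε`
  and `J`.
* `(2)` For `f = T y` this property is equivalent to a property of the eigenvalues alone: along all
  segments of `O` in the direction `y` the function `log (E_j · Area)` of the metric has the Lipschitz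
  constant `ε`, for all `j ≥ J`.
* `(3)` Zero-one law. There is an open subset `O₁` of `O` such that for all metrics in `O₁` except for
  a meagre set quantum unique ergodicity holds for all eigenbases and is locally uniform in the
  metric, whereas the set of all metrics in `O \ O₁` with at least one equidistributed eigenbasis is
  meagre. The failure in `O \ O₁` is locally uniform, too: every nonempty open subset of `O \ O₁`
  contains a nonempty open set `W'` with a function `f` and `ε > 0` such that for all metrics in `W'`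
  except for a meagre set and for every eigenbasis `dev f (u j) > ε` for infinitely many `j`.

In particular: if quantum unique ergodicity holds for all (or for generic) metrics in `O`, at least
for some choice of the eigenbases, and `X` is a Baire space, then `O₁` is dense in `O`: quantum
unique ergodicity is locally uniform near the generic metric and holds for all eigenbases, and the
variation of the eigenvalues there is asymptotically the variation of the area. Compare
`NoUniformQUE`: there is no uniformity near some metrics of nonpositive curvature.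

Proof. `log E_j` is Lipschitz along segments of metrics, and its derivative is `- ∫ f (u j)² dA` almost
everywhere, for every choice of the bases. This and a quantitative stability estimate for eigenspaces
(`stab`) give the bound for the eigenvalues from a dense set and some bases. Conversely the two
one-sided derivatives of the largest eigenvalue branch of a cluster control the quadratic form of `f`
on the whole eigenspace (`top`, `of_bound`). Baire's argument gives (3).
-/

set_option autoImplicit false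

open Set Filter Topology MeasureTheory
open Pool.Agent.Y262.QE

noncomputable section

namespace Pool.Agent.Results.MP_07c750_an.ZeroOneLaw

/-- `u 0, u 1, ...` is an orthonormal basis of `L² (μ)` which consists of eigenfunctions of the
Laplacian of the surface `D` with the area `μ`; the eigenvalues `lam 0 ≤ lam 1 ≤ ...` are ordered -/
structure IsEigenbasis {M : Type} [MeasurableSpace M] (D : Data M) (μ : Measure M)
    (u : ℕ → M → ℝ) (lam : ℕ → ℝ) : Prop where
  eig : ∀ j, D.IsEig μ (lam j) (u j)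
  mono : Monotone lam
  orth : ∀ i j, ∫ x, u i x * u j x ∂μ = if i = j then 1 else 0
  total : ∀ f : M → ℝ, MemLp f 2 μ → (∀ j, ∫ x, f x * u j x ∂μ = 0) → f =ᵐ[μ] 0

/-- the surface with the metric `exp φ · g` -/
def surf {M : Type} [TopologicalSpace M] (D : Data M) (φ : C(M, ℝ)) : Data M :=
  D.conf fun x => Real.exp (φ x)

/-- the area of the metric `exp φ · g` -/
def area {M : Type} [TopologicalSpace M] [MeasurableSpace M] (μ : Measure M) (φ : C(M, ℝ)) :
    Measure M :=
  wm μ fun x => Real.exp (φ x)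

/-- the distance of `∫ f u² dμ` from the mean value of `f` -/
def dev {M : Type} [TopologicalSpace M] [MeasurableSpace M] (μ : Measure M) (f : C(M, ℝ))
    (u : M → ℝ) : ℝ :=
  |∫ x, f x * (u x) ^ 2 ∂μ - (∫ x, f x ∂μ) / μ.real univ|

section

open Pool.Agent.Y264.QR Pool.Agent.K4H66.QU

variable {M : Type} [MetricSpace M] [CompactSpace M] [MeasurableSpace M] [BorelSpace M]
  {μ : Measure M} [IsFiniteMeasure μ] {H : Type} [NormedAddCommGroup H] [InnerProductSpace ℝ H]
  {i : H →L[ℝ] Lp ℝ 2 μ} {a : H →L[ℝ] H →L[ℝ] ℝ} {b : C(M, ℝ) → H →L[ℝ] H →L[ℝ] ℝ}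

theorem dev_eq {φ f : C(M, ℝ)} {v : H} {u : M → ℝ}
    (hk : kap μ i f φ v = ∫ x, f x * (u x) ^ 2 ∂(area μ φ)) :
    dev (area μ φ) f u = |kap μ i f φ v - avg μ f φ| := by
  unfold dev
  rw [hk, avg_eq μ f φ]
  rfl

theorem area_eq (φ : C(M, ℝ)) : (area μ φ).real univ = ∫ x, Real.exp (φ x) ∂μ := by
  have h0 : ∀ x, 0 ≤ Real.exp (φ x) := fun x => (Real.exp_pos _).le
  have h5 : (area μ φ).real univ = ∫ x, (1 : ℝ) ∂(wm μ fun x => Real.exp (φ x)) := by
    simp [area]
  rw [h5, integral_wm μ _ (expm φ) h0]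
  simp

end

theorem result (M : Type) [MetricSpace M] [CompactSpace M] [MeasurableSpace M] [BorelSpace M]
    [Nonempty M] (μ : Measure M) (D : Data M) (hD : D.IsSurf μ) :
    (∀ φ : C(M, ℝ), (surf D φ).IsSurf (area μ φ) ∧
      ∃ (u : ℕ → M → ℝ) (lam : ℕ → ℝ), IsEigenbasis (surf D φ) (area μ φ) u lam) ∧
    ∃ J₀ : ℕ,
      (∀ (φ : C(M, ℝ)) (u : ℕ → M → ℝ) (lam : ℕ → ℝ),
        IsEigenbasis (surf D φ) (area μ φ) u lam → 0 < lam J₀) ∧
      ∀ (X : Type) [AddCommGroup X] [Module ℝ X] [TopologicalSpace X] [ContinuousAdd X]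
        [ContinuousSMul ℝ X] (T : X →L[ℝ] C(M, ℝ)), DenseRange T → ∀ O : Set X, IsOpen O →
      -- (1) from some bases on a dense set to all bases and all metrics
      (∀ (f : C(M, ℝ)) (ε : ℝ) (J : ℕ), J₀ ≤ J →
        O ⊆ closure {x ∈ O | ∃ (u : ℕ → M → ℝ) (lam : ℕ → ℝ),
          IsEigenbasis (surf D (T x)) (area μ (T x)) u lam ∧
            ∀ j, J ≤ j → dev (area μ (T x)) f (u j) ≤ ε} →
        ∀ x ∈ O, ∀ (u : ℕ → M → ℝ) (lam : ℕ → ℝ),
          IsEigenbasis (surf D (T x)) (area μ (T x)) u lam →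
            ∀ j, J ≤ j → dev (area μ (T x)) f (u j) ≤ ε) ∧
      -- (2) a property of the eigenvalues
      (∀ (y : X) (ε : ℝ) (J : ℕ), J₀ ≤ J →
        ((∀ x ∈ O, ∀ (u : ℕ → M → ℝ) (lam : ℕ → ℝ),
          IsEigenbasis (surf D (T x)) (area μ (T x)) u lam →
            ∀ j, J ≤ j → dev (area μ (T x)) (T y) (u j) ≤ ε) ↔
        ∀ x ∈ O, ∀ t : ℝ, (∀ s ∈ uIcc 0 t, x + s • y ∈ O) →
          ∀ (u u' : ℕ → M → ℝ) (lam lam' : ℕ → ℝ),
            IsEigenbasis (surf D (T x)) (area μ (T x)) u lam →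
            IsEigenbasis (surf D (T (x + t • y))) (area μ (T (x + t • y))) u' lam' →
            ∀ j, J ≤ j → |Real.log (lam' j * (area μ (T (x + t • y))).real univ) -
              Real.log (lam j * (area μ (T x)).real univ)| ≤ ε * |t|)) ∧
      -- (3) the zero-one law
      ∃ O₁ R : Set X, IsOpen O₁ ∧ O₁ ⊆ O ∧ R ⊆ O₁ ∧ IsMeagre (O₁ \ R) ∧
        (∀ x ∈ R, ∀ (f : C(M, ℝ)) (ε : ℝ), 0 < ε → ∃ (W : Set X) (J : ℕ), IsOpen W ∧ x ∈ W ∧
          ∀ x' ∈ W, ∀ (u : ℕ → M → ℝ) (lam : ℕ → ℝ),
            IsEigenbasis (surf D (T x')) (area μ (T x')) u lam →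
              ∀ j, J ≤ j → dev (area μ (T x')) f (u j) ≤ ε) ∧
        IsMeagre {x ∈ O \ O₁ | ∃ (u : ℕ → M → ℝ) (lam : ℕ → ℝ),
          IsEigenbasis (surf D (T x)) (area μ (T x)) u lam ∧
            ∀ f : C(M, ℝ), Tendsto (fun j => dev (area μ (T x)) f (u j)) atTop (𝓝 0)} ∧
        ∀ W : Set X, IsOpen W → W.Nonempty → W ⊆ O \ O₁ →
          ∃ (W' : Set X) (f : C(M, ℝ)) (ε : ℝ), IsOpen W' ∧ W'.Nonempty ∧ W' ⊆ W ∧ 0 < ε ∧
            IsMeagre {x ∈ W' | ∃ (u : ℕ → M → ℝ) (lam : ℕ → ℝ),
              IsEigenbasis (surf D (T x)) (area μ (T x)) u lam ∧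
                ∀ᶠ j in atTop, dev (area μ (T x)) f (u j) ≤ ε} := by
  obtain ⟨hfin, -⟩ := Pool.Agent.Y262.QE.tFin M μ D hD
  have _ := hfin
  obtain ⟨i, a, b, hC, htr⟩ := Pool.Agent.K4H66.QU.transfer μ D hD
  have hbas : ∀ {φ : C(M, ℝ)} {u : ℕ → M → ℝ} {lam : ℕ → ℝ},
      IsEigenbasis (surf D φ) (area μ φ) u lam →
      ∃ e : ℕ → Pool.Agent.Y264.QR.HF D μ, Pool.Agent.Y262.QE.Eg a (b φ) e lam ∧
        ∀ (f : C(M, ℝ)) (j : ℕ), Pool.Agent.Y264.QR.kap μ i f φ (e j) =
          ∫ x, f x * (u j x) ^ 2 ∂(area μ φ) :=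
    fun {φ u lam} hu => htr φ u lam ⟨hu.eig, hu.mono, hu.orth, hu.total⟩
  have hex : ∀ φ : C(M, ℝ), ∃ (u : ℕ → M → ℝ) (lam : ℕ → ℝ),
      IsEigenbasis (surf D φ) (area μ φ) u lam := by
    intro φ
    obtain ⟨u, lam, h⟩ := Pool.Agent.Y264.QR.tEx M μ D hD inferInstance φ
    exact ⟨u, lam, h.eig, h.mono, h.orth, h.total⟩
  obtain ⟨J₀, hJ₀⟩ := hC.J0
  refine ⟨fun φ => ⟨(Pool.Agent.Y262.QE.tConf M μ D hD _
    (Real.continuous_exp.comp φ.continuous) fun x => Real.exp_pos _).1, hex φ⟩, J₀, ?_, ?_⟩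
  · intro φ u lam hu
    obtain ⟨e, he, -⟩ := hbas hu
    rw [← hC.mm he]
    exact hJ₀ J₀ le_rfl φ
  intro X _ _ _ _ _ T hT O hO
  -- all eigenvectors from all eigenbases is not needed: all bases from all eigenvectors
  have hAll : ∀ {f : C(M, ℝ)} {ε : ℝ} {J : ℕ} {φ : C(M, ℝ)},
      Pool.Agent.K4H66.QU.AllE μ i a b f ε J φ → ∀ (u : ℕ → M → ℝ) (lam : ℕ → ℝ),
        IsEigenbasis (surf D φ) (area μ φ) u lam → ∀ j, J ≤ j → dev (area μ φ) f (u j) ≤ ε := by
    intro f ε J φ hA u lam hu j hj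
    obtain ⟨e, he, hkap⟩ := hbas hu
    rw [dev_eq (hkap f j)]
    exact hA j hj (e j) (hC.isV he j)
  have hSome : ∀ {f : C(M, ℝ)} {ε : ℝ} {J : ℕ} {φ : C(M, ℝ)},
      (∃ (u : ℕ → M → ℝ) (lam : ℕ → ℝ), IsEigenbasis (surf D φ) (area μ φ) u lam ∧
        ∀ j, J ≤ j → dev (area μ φ) f (u j) ≤ ε) → Pool.Agent.K4H66.QU.SomeE μ i a b f ε J φ := by
    rintro f ε J φ ⟨u, lam, hu, hd⟩
    obtain ⟨e, he, hkap⟩ := hbas hu
    refine ⟨e, lam, he, fun j hj => ?_⟩
    rw [← dev_eq (hkap f j)]
    exact hd j hj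
  have hlE : ∀ {φ : C(M, ℝ)} {u : ℕ → M → ℝ} {lam : ℕ → ℝ},
      IsEigenbasis (surf D φ) (area μ φ) u lam → ∀ j, J₀ ≤ j →
        Pool.Agent.K4H66.QU.lE μ a b j φ = Real.log (lam j * (area μ φ).real univ) := by
    intro φ u lam hu j hj
    obtain ⟨e, he, -⟩ := hbas hu
    have h1 := hJ₀ j hj φ
    unfold Pool.Agent.K4H66.QU.lE
    rw [area_eq, hC.mm he, Real.log_mul _ (hC.pos φ).ne']
    rw [← hC.mm he]
    exact h1.ne'
  refine ⟨?_, ?_, ?_⟩
  · intro f ε J hJ hd x hx
    refine hAll (hC.dense_all hT (fun j hj ψ => hJ₀ j (hJ.trans hj) ψ) hO f (hd.trans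
      (closure_mono fun x' hx' => ⟨hx'.1, hSome hx'.2⟩)) x hx)
  · intro y ε J hJ
    constructor
    · intro hall x hx t ht u u' lam lam' hu hu' j hj
      have hd : O ⊆ closure {x ∈ O | Pool.Agent.K4H66.QU.SomeE μ i a b (T y) ε J (T x)} := by
        intro x' hx'
        refine subset_closure ⟨hx', hSome ?_⟩
        obtain ⟨v, l, hv⟩ := hex (T x')
        exact ⟨v, l, hv, hall x' hx' v l hv⟩
      have h1 := hC.lipO (fun j hj ψ => hJ₀ j (hJ.trans hj) ψ) y hd x t ht j hj
      rw [hlE hu j (hJ.trans hj), hlE hu' j (hJ.trans hj)] at h1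
      exact h1
    · intro hL x hx
      refine hAll (hC.all_of_lip (fun j hj ψ => hJ₀ j (hJ.trans hj) ψ) hO y ?_ x hx)
      intro x' hx' t ht j hj
      obtain ⟨u, lam, hu⟩ := hex (T x')
      obtain ⟨u', lam', hu'⟩ := hex (T (x' + t • y))
      have h1 := hL x' hx' t ht u u' lam lam' hu hu' j hj
      rwa [← hlE hu j (hJ.trans hj), ← hlE hu' j (hJ.trans hj)] at h1
  · obtain ⟨O₁, R, h1, h2, h3, h4, h5, h6, h8⟩ := hC.zeroOne hT hO
    refine ⟨O₁, R, h1, h2, h3, h4, ?_, ?_, ?_⟩
    · intro x hx f ε hε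
      obtain ⟨W, J, hW, hxW, hall⟩ := h5 x hx f ε hε
      exact ⟨W, J, hW, hxW, fun x' hx' => hAll (hall x' hx')⟩
    · refine IsMeagre.mono ?_ h6
      rintro x ⟨hx, u, lam, hu, hlim⟩
      obtain ⟨e, he, hkap⟩ := hbas hu
      refine ⟨hx, e, lam, he, fun f => ?_⟩
      have h7 := hlim f
      simp only [fun j => dev_eq (hkap f j)] at h7
      rw [tendsto_iff_norm_sub_tendsto_zero]
      exact h7
    · intro W hW hWne hWO
      obtain ⟨W', f, ε, k1, k2, k3, k4, k5⟩ := h8 W hW hWne hWO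
      refine ⟨W', f, ε, k1, k2, k3, k4, IsMeagre.mono ?_ k5⟩
      rintro x ⟨hx, u, lam, hu, hev⟩
      obtain ⟨e, he, hkap⟩ := hbas hu
      refine ⟨hx, e, lam, he, hev.mono fun j hj => ?_⟩
      rw [← dev_eq (hkap f j)]
      exact hj

end Pool.Agent.Results.MP_07c750_an.ZeroOneLaw
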